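import Pool.Agent.Y969.SM.Stm

set_option autoImplicit false

/-! Project SX: twisted moment with powers of `(t-T)/T` (S_UB0 -> S_UB). -/

namespace Pool.Agent.Y4.SX

open Finset Filter Topology MeasureTheory Complex
open Pool.Agent.H306R2.SM (om cl)
open Pool.Agent.H262R4.TM (Rng)
open Pool.Agent.W184.NZ (mh)
open Pool.Agent.Y969.SM

noncomputable section

lemma om_nonneg (k : ℕ) {δ t : ℝ} (hδ : 0 < δ) (ht : 0 ≤ t) : 0 ≤ om k δ t := by
  unfold om; positivity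

lemma om_cont (k : ℕ) (δ : ℝ) : Continuous (om k δ) := by
  unfold om; fun_prop

/-- integrability of `om * (1+t)^A` -/
lemma om_poly (k A : ℕ) {δ : ℝ} (hδ : 0 < δ) :
    IntegrableOn (fun t : ℝ => om k δ t * (1 + t) ^ A) (Set.Ioi 0) := by
  have h1 : ∀ j : ℕ, IntegrableOn (fun t : ℝ => t ^ (k + j) * Real.exp (-(δ * t))) (Set.Ioi 0) := by
    intro j
    have := Real.GammaIntegral_convergent (s := (k + j : ℕ) + 1) (by positivity)
    have h2 := (integrableOn_Ioi_comp_mul_left_iff (fun x : ℝ => Real.exp (-x) * x ^ (((k + j : ℕ):ℝ) + 1 - 1)) 0 hδ).mpr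
      (by simpa using this)
    have h3 : IntegrableOn (fun x => (δ ^ (k + j))⁻¹ *
        (Real.exp (-(δ * x)) * (δ * x) ^ (((k + j : ℕ) : ℝ) + 1 - 1))) (Set.Ioi 0) :=
      h2.const_mul ((δ ^ (k + j))⁻¹)
    refine h3.congr_fun (fun t ht => ?_) measurableSet_Ioi
    have ht0 : 0 < t := ht
    simp only [add_sub_cancel_right]
    rw [Real.rpow_natCast, mul_pow]
    field_simp
  have h4 : (fun t : ℝ => om k δ t * (1 + t) ^ A) = fun t : ℝ =>
      ∑ j ∈ range (A + 1), (δ ^ (k + 1) / (k.factorial : ℝ) * (A.choose j : ℝ)) *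
        (t ^ (k + j) * Real.exp (-(δ * t))) := by
    funext t
    rw [add_comm 1 t, add_pow, mul_sum]
    refine sum_congr rfl fun j _ => ?_
    unfold om
    rw [pow_add]
    ring
  rw [h4]
  exact integrable_finsetSum _ fun j _ => (h1 j).const_mul _

/-- integrability against `om` for polynomially bounded continuous functions -/
lemma om_int (k : ℕ) {δ : ℝ} (hδ : 0 < δ) {f : ℝ → ℂ} (hf : Continuous f)
    (hb : ∃ C : ℝ, ∃ A : ℕ, ∀ t : ℝ, 0 ≤ t → ‖f t‖ ≤ C * (1 + t) ^ A) :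
    IntegrableOn (fun t : ℝ => (om k δ t : ℂ) * f t) (Set.Ioi 0) := by
  obtain ⟨C, A, h⟩ := hb
  refine Integrable.mono' ((om_poly k A hδ).const_mul C) ?_ ?_
  · exact ((continuous_ofReal.comp (om_cont k δ)).mul hf).aestronglyMeasurable
  · refine (ae_restrict_iff' measurableSet_Ioi).mpr (Eventually.of_forall fun t ht => ?_)
    have ht0 : (0:ℝ) ≤ t := le_of_lt ht
    rw [norm_mul, Complex.norm_real, Real.norm_of_nonneg (om_nonneg k hδ ht0)]
    calc om k δ t * ‖f t‖ ≤ om k δ t * (C * (1 + t) ^ A) :=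
          mul_le_mul_of_nonneg_left (h t ht0) (om_nonneg k hδ ht0)
      _ = C * (om k δ t * (1 + t) ^ A) := by ring

/-- the twist is continuous -/
lemma mh_cont {h l : ℕ} (hh : 1 ≤ h) (hl : 1 ≤ l) : Continuous fun t : ℝ => mh t (h, l) := by
  have h0 : (h : ℂ) ≠ 0 := by exact_mod_cast (show h ≠ 0 by omega)
  have l0 : (l : ℂ) ≠ 0 := by exact_mod_cast (show l ≠ 0 by omega)
  change Continuous fun t : ℝ => (h : ℂ) ^ (-(1 / 2 + t * Complex.I)) *
    (l : ℂ) ^ (-(1 / 2 - t * Complex.I))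
  refine Continuous.mul ?_ ?_
  · exact Continuous.const_cpow (by fun_prop) (Or.inl h0)
  · exact Continuous.const_cpow (by fun_prop) (Or.inl l0)

/-- the twist is bounded -/
lemma mh_le {h l : ℕ} (hh : 1 ≤ h) (hl : 1 ≤ l) (t : ℝ) : ‖mh t (h, l)‖ ≤ 1 := by
  change ‖(h : ℂ) ^ (-(1 / 2 + t * Complex.I)) * (l : ℂ) ^ (-(1 / 2 - t * Complex.I))‖ ≤ 1
  rw [norm_mul, Complex.norm_natCast_cpow_of_pos (by omega),
    Complex.norm_natCast_cpow_of_pos (by omega)]
  have h1 : (-(1 / 2 + (t : ℂ) * Complex.I)).re = -(1 / 2) := by simp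
  have h2 : (-(1 / 2 - (t : ℂ) * Complex.I)).re = -(1 / 2) := by simp
  rw [h1, h2]
  have h3 : ∀ n : ℕ, 1 ≤ n → (n : ℝ) ^ (-(1 / 2) : ℝ) ≤ 1 := fun n hn =>
    Real.rpow_le_one_of_one_le_of_nonpos (by exact_mod_cast hn) (by norm_num)
  exact mul_le_one₀ (h3 h hh) (Real.rpow_nonneg (Nat.cast_nonneg _) _) (h3 l hl)

/-- powers of `t` are absorbed in the density -/
lemma om_shift (κ i : ℕ) (hκ : 1 ≤ κ) {T : ℝ} (hT : 0 < T) (t : ℝ) :
    (t / T) ^ i * om κ (κ / T) t =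
      (((κ + i).factorial : ℝ) / ((κ.factorial : ℝ) * (κ : ℝ) ^ i)) * om (κ + i) (κ / T) t := by
  unfold om
  have h1 : (0 : ℝ) < κ := by exact_mod_cast hκ
  have h2 : (0 : ℝ) < κ.factorial := by exact_mod_cast Nat.factorial_pos κ
  have h3 : (0 : ℝ) < (κ + i).factorial := by exact_mod_cast Nat.factorial_pos (κ + i)
  rw [show κ + i + 1 = (κ + 1) + i by ring, pow_add ((κ : ℝ) / T) (κ + 1) i, pow_add t κ i]
  rw [div_pow (κ : ℝ) T i, div_pow t T i]
  field_simp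

/-- the constant -/
lemma fac_le (κ i d : ℕ) (hκ : 1 ≤ κ) (hi : i ≤ d) (hd : d ≤ κ) :
    ((κ + i).factorial : ℝ) / ((κ.factorial : ℝ) * (κ : ℝ) ^ i) ≤ 2 ^ d := by
  have h1 : (0 : ℝ) < κ := by exact_mod_cast hκ
  have h2 : (0 : ℝ) < κ.factorial := by exact_mod_cast Nat.factorial_pos κ
  rw [div_le_iff₀ (by positivity)]
  have h3 : (κ + i).factorial ≤ κ.factorial * (2 * κ) ^ i := by
    clear h1 h2
    induction i with
    | zero => simp
    | succ i ih =>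
      rw [← add_assoc, Nat.factorial_succ, pow_succ]
      have h4 := ih (by omega)
      have h5 : κ + i + 1 ≤ 2 * κ := by omega
      calc (κ + i + 1) * (κ + i).factorial ≤ (2 * κ) * (κ.factorial * (2 * κ) ^ i) :=
            Nat.mul_le_mul h5 h4
        _ = κ.factorial * ((2 * κ) ^ i * (2 * κ)) := by ring
  have h4 : ((κ + i).factorial : ℝ) ≤ κ.factorial * (2 * κ) ^ i := by exact_mod_cast h3
  refine h4.trans ?_
  rw [mul_pow]
  have h5 : (2 : ℝ) ^ i ≤ 2 ^ d := pow_le_pow_right₀ (by norm_num) hi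
  calc (κ.factorial : ℝ) * (2 ^ i * (κ : ℝ) ^ i) = 2 ^ i * (κ.factorial * (κ : ℝ) ^ i) := by ring
    _ ≤ 2 ^ d * (κ.factorial * (κ : ℝ) ^ i) :=
      mul_le_mul_of_nonneg_right h5 (by positivity)

/-- the window of the shifted density -/
lemma rng_shift (d : ℕ) : ∀ᶠ T : ℝ in atTop, ∀ κ : ℕ, Rng T κ → (κ : ℝ) ≤ 3 * Real.log T ^ 2 →
    1 ≤ κ ∧ d ≤ κ ∧ ∀ i ≤ d, T / 2 ≤ T * ((κ + i : ℕ) : ℝ) / κ ∧ T * ((κ + i : ℕ) : ℝ) / κ ≤ 2 * T ∧
      Rng (T * ((κ + i : ℕ) : ℝ) / κ) (κ + i) := by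
  have hlog := Real.tendsto_log_atTop
  filter_upwards [hlog.eventually_ge_atTop (4 + 2 * (d : ℝ)), eventually_gt_atTop 1] with T hL hT
  intro κ hR hκ3
  obtain ⟨hR1, hR2⟩ := hR
  obtain ⟨L, hLdef⟩ : ∃ L, Real.log T = L := ⟨_, rfl⟩
  rw [hLdef] at hL hR1 hR2 hκ3
  have hd0 : (0 : ℝ) ≤ d := Nat.cast_nonneg d
  have hL4 : 4 ≤ L := by linarith
  have hκL : L ≤ κ := by nlinarith
  have hκ0 : (0 : ℝ) < κ := by linarith
  have hκd : (d : ℝ) ≤ κ := by linarith
  have hκ1 : 1 ≤ κ := by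
    have : (0 : ℕ) < κ := by exact_mod_cast hκ0
    omega
  refine ⟨hκ1, by exact_mod_cast hκd, fun i hi => ?_⟩
  have hi' : (i : ℝ) ≤ d := by exact_mod_cast hi
  have hi0 : (0 : ℝ) ≤ i := Nat.cast_nonneg i
  have hcast : ((κ + i : ℕ) : ℝ) = κ + i := by push_cast; ring
  have hT0 : 0 < T := by linarith
  have hx : T * ((κ + i : ℕ) : ℝ) / κ = T * (1 + i / κ) := by
    rw [hcast]
    field_simp
  rw [hx]
  have hq0 : 0 ≤ (i : ℝ) / κ := by positivity
  have hq1 : (i : ℝ) / κ ≤ 1 := by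
    rw [div_le_one hκ0]
    linarith
  refine ⟨by nlinarith, by nlinarith, ?_, ?_⟩
  · -- lower bound
    have h1 : Real.log (T * (1 + i / κ)) ≤ L + i / κ := by
      rw [Real.log_mul (by positivity) (by positivity), hLdef]
      have h2 := Real.log_le_sub_one_of_pos (show (0 : ℝ) < 1 + i / κ by positivity)
      linarith
    have h0 : 0 ≤ Real.log (T * (1 + i / κ)) := Real.log_nonneg (by nlinarith)
    have h3 : Real.log (T * (1 + i / κ)) ^ 2 ≤ (L + i / κ) ^ 2 := pow_le_pow_left₀ h0 h1 2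
    refine h3.trans ?_
    rw [hcast]
    have h4 : (L + i / κ) ^ 2 = L ^ 2 + (2 * L * (1 / κ) + (i / κ) * (1 / κ)) * i := by
      field_simp
      ring
    rw [h4]
    have h5 : 2 * L * (1 / κ) ≤ 1 / 2 := by
      rw [mul_one_div, div_le_iff₀ hκ0]
      nlinarith
    have h6 : (i : ℝ) / κ * (1 / κ) ≤ 1 / 2 := by
      have h7 : (1 : ℝ) / κ ≤ 1 / 2 := by
        apply one_div_le_one_div_of_le (by norm_num)
        linarith
      calc (i : ℝ) / κ * (1 / κ) ≤ 1 * (1 / 2) := mul_le_mul hq1 h7 (by positivity) (by norm_num)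
        _ = 1 / 2 := one_mul _
    nlinarith
  · -- upper bound
    rw [hcast]
    have h1 : L ≤ Real.log (T * (1 + i / κ)) := by
      rw [← hLdef]
      exact Real.log_le_log hT0 (by nlinarith)
    have h2 : L ^ 2 ≤ Real.log (T * (1 + i / κ)) ^ 2 := pow_le_pow_left₀ (by linarith) h1 2
    nlinarith

theorem t_UB (k : ℕ) (h : S_UB0 k) (h0 : S_FB k) : S_UB k := by
  obtain ⟨η1, η2, hη1, hη2, hU⟩ := h
  refine ⟨η1, η2, hη1, hη2, fun d ε hε => ?_⟩
  obtain ⟨C, hC, hU'⟩ := hU ε hε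
  refine ⟨4 ^ d * C, by positivity, ?_⟩
  filter_upwards [hU', h0, rng_shift d, eventually_gt_atTop 1] with T hUT hF hRT hT
  intro κ hR hκ3 hh l hh1 hl1 hhT hlT
  obtain ⟨hκ1, hκd, hi⟩ := hRT κ hR hκ3
  have hT0 : 0 < T := by linarith
  have hκ0 : (0 : ℝ) < κ := by exact_mod_cast hκ1
  have hδ : 0 < (κ : ℝ) / T := by positivity
  obtain ⟨hFc, -, hFb⟩ := hF
  obtain ⟨B, hB⟩ : ∃ B : ℝ, B = Real.log T ^ 4 * (((hh * l : ℕ) : ℝ) ^ ε * (Nat.gcd hh l : ℝ) /
      ((hh : ℝ) * l)) + T ^ (-η2) := ⟨_, rfl⟩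
  have hB0 : 0 ≤ B := by
    rw [hB]
    positivity
  rw [← hB]
  obtain ⟨A, hA⟩ : ∃ A : ℕ → ℝ, A = fun i => (d.choose i : ℝ) * (-1) ^ (d - i) *
      (((κ + i).factorial : ℝ) / ((κ.factorial : ℝ) * (κ : ℝ) ^ i)) := ⟨_, rfl⟩
  -- the integrals
  obtain ⟨G, hG⟩ : ∃ G : ℕ → ℝ → ℂ, G = fun i t =>
      ((om (κ + i) (κ / T) t * F0 k T t : ℝ) : ℂ) * mh t (hh, l) := ⟨_, rfl⟩
  have hint : ∀ i, IntegrableOn (G i) (Set.Ioi 0) := by
    intro i
    have h1 := om_int (κ + i) hδ (f := fun t => ((F0 k T t : ℝ) : ℂ) * mh t (hh, l))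
      ((continuous_ofReal.comp hFc).mul (mh_cont hh1 hl1)) ⟨T ^ 3, 4, fun t ht => by
        rw [norm_mul, Complex.norm_real, Real.norm_eq_abs]
        calc |F0 k T t| * ‖mh t (hh, l)‖ ≤ |F0 k T t| * 1 :=
              mul_le_mul_of_nonneg_left (mh_le hh1 hl1 t) (abs_nonneg _)
          _ ≤ T ^ 3 * (1 + t) ^ 4 := by rw [mul_one]; exact hFb t ht⟩
    refine h1.congr_fun (fun t _ => ?_) measurableSet_Ioi
    rw [hG]
    push_cast
    ring
  have hbd : ∀ i ≤ d, ‖∫ t in Set.Ioi (0:ℝ), G i t‖ ≤ C * B := by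
    intro i hid
    obtain ⟨b1, b2, b3⟩ := hi i hid
    have h1 := hUT _ _ b1 b2 b3 hh l hh1 hl1 hhT hlT
    have hne : ((κ + i : ℕ) : ℝ) ≠ 0 := by
      have : κ + i ≠ 0 := by omega
      exact_mod_cast this
    have h2 : ((κ + i : ℕ) : ℝ) / (T * ((κ + i : ℕ) : ℝ) / κ) = κ / T := by
      field_simp
    rw [h2, ← hB] at h1
    rw [hG]
    exact h1
  have hsum : ∫ t in Set.Ioi (0:ℝ), ((om κ (κ / T) t * (((t - T) / T) ^ d * F0 k T t) : ℝ) : ℂ) *
      mh t (hh, l) = ∑ i ∈ range (d + 1), ((A i : ℝ) : ℂ) * ∫ t in Set.Ioi (0:ℝ), G i t := by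
    simp_rw [← integral_const_mul]
    rw [← integral_finsetSum _ fun i _ => (hint i).const_mul _]
    refine setIntegral_congr_fun measurableSet_Ioi fun t _ => ?_
    have h1 : ((t - T) / T) ^ d = ∑ i ∈ range (d + 1), (t / T) ^ i * (-1) ^ (d - i) * (d.choose i) := by
      rw [← add_pow]
      congr 1
      field_simp
      ring
    have h2 : om κ (κ / T) t * (((t - T) / T) ^ d * F0 k T t) =
        ∑ i ∈ range (d + 1), A i * (om (κ + i) (κ / T) t * F0 k T t) := by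
      rw [h1, Finset.sum_mul, Finset.mul_sum]
      refine Finset.sum_congr rfl fun i _ => ?_
      have h3 := om_shift κ i hκ1 hT0 t
      rw [hA]
      simp only []
      calc om κ (κ / T) t * ((t / T) ^ i * (-1) ^ (d - i) * (d.choose i) * F0 k T t) =
            ((t / T) ^ i * om κ (κ / T) t) * ((-1) ^ (d - i) * (d.choose i) * F0 k T t) := by ring
        _ = _ := by
            rw [h3]
            ring
    rw [h2, hG]
    push_cast
    rw [Finset.sum_mul]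
    refine Finset.sum_congr rfl fun i _ => ?_
    ring
  rw [hsum]
  have hAb : ∀ i ≤ d, |A i| ≤ (d.choose i : ℝ) * 2 ^ d := by
    intro i hid
    rw [hA]
    simp only []
    have h1 := fac_le κ i d hκ1 hid hκd
    have h2 : 0 ≤ ((κ + i).factorial : ℝ) / ((κ.factorial : ℝ) * (κ : ℝ) ^ i) := by positivity
    rw [abs_mul, abs_mul, abs_pow, abs_neg, abs_one, one_pow, mul_one, abs_of_nonneg h2,
      abs_of_nonneg (Nat.cast_nonneg _)]
    exact mul_le_mul_of_nonneg_left h1 (Nat.cast_nonneg _)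
  calc ‖∑ i ∈ range (d + 1), ((A i : ℝ) : ℂ) * ∫ t in Set.Ioi (0:ℝ), G i t‖ ≤
        ∑ i ∈ range (d + 1), ‖((A i : ℝ) : ℂ) * ∫ t in Set.Ioi (0:ℝ), G i t‖ := norm_sum_le _ _
    _ ≤ ∑ i ∈ range (d + 1), ((d.choose i : ℝ) * 2 ^ d) * (C * B) := by
        refine Finset.sum_le_sum fun i hir => ?_
        have hid : i ≤ d := by
          rw [Finset.mem_range] at hir
          omega
        rw [norm_mul, Complex.norm_real, Real.norm_eq_abs]
        exact mul_le_mul (hAb i hid) (hbd i hid) (norm_nonneg _) (by positivity)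
    _ = 4 ^ d * C * B := by
        rw [← Finset.sum_mul, ← Finset.sum_mul]
        have h1 : ∑ i ∈ range (d + 1), (d.choose i : ℝ) = 2 ^ d := by
          exact_mod_cast Nat.sum_range_choose d
        rw [h1, show (4 : ℝ) = 2 * 2 by norm_num, mul_pow]
        ring

end

end Pool.Agent.Y4.SX
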